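import Pool.Agent.V5helper2.NR.Stm3
import Pool.Agent.V5helper53.NR.PMS

/-! # Project NR, job DIA: the mass of the diagonal after removing finitely many atoms -/

set_option autoImplicit false
open Finset Filter Topology MeasureTheory AddCircle
open scoped ComplexConjugate ENNReal

namespace Pool.Agent.V5helper47.NR

open Pool.Agent.V5helper2.NR Pool.Agent.Helper498.NCR Pool.Agent.V5helper2.CF
open Pool.Agent.V5helper53.NR (f_pos f_inj f_norm)

/-- the local average of the character -/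
noncomputable def av (H : ℕ) (t s : Ci) : ℂ :=
  (H : ℂ)⁻¹ * ∑ h ∈ range H, (fourier (-1) t) ^ h * fourier (h : ℤ) s

theorem av_eq (H : ℕ) (t s : Ci) :
    av H t s = (H : ℂ)⁻¹ * ∑ h ∈ range H, ((fourier 1 s : ℂ) * fourier (-1) t) ^ h := by
  unfold av
  congr 1
  refine Finset.sum_congr rfl fun h _ => ?_
  rw [f_pos, mul_pow, mul_comm]

theorem av_norm (H : ℕ) (t s : Ci) : ‖av H t s‖ ≤ 1 := by
  rw [av_eq, norm_mul, norm_inv, Complex.norm_natCast]
  have h1 : ‖∑ h ∈ range H, ((fourier 1 s : ℂ) * fourier (-1) t) ^ h‖ ≤ (H : ℝ) := by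
    refine (norm_sum_le_of_le (n := fun _ => (1 : ℝ)) _ (fun h _ => ?_)).trans ?_
    · rw [norm_pow, norm_mul, f_norm, f_norm, one_mul, one_pow]
    · simp
  rcases Nat.eq_zero_or_pos H with h0 | h0
  · subst h0; simp
  · have h2 : (0 : ℝ) < (H : ℝ) := by positivity
    rw [inv_mul_le_iff₀ h2, mul_one]
    exact h1

open Classical in
theorem av_tendsto (t s : Ci) :
    Tendsto (fun H => av H t s) atTop (𝓝 (if s = t then 1 else 0)) := by
  have h := char_avg ((fourier 1 s : ℂ) * fourier (-1) t)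
    (by rw [norm_mul, f_norm, f_norm, one_mul])
  by_cases hst : s = t
  · subst hst
    rw [if_pos rfl]
    have h1 : (fourier 1 s : ℂ) * fourier (-1) s = 1 := by
      have h2 : (fourier (-1) s : ℂ) = conj (fourier 1 s : ℂ) := fourier_neg
      rw [h2, Complex.mul_conj, Complex.normSq_eq_norm_sq, f_norm]
      simp
    rw [if_pos h1] at h
    exact h.congr fun H => (av_eq H s s).symm
  · rw [if_neg hst]
    rw [if_neg fun hh => hst (f_inj _ _ hh)] at h
    exact h.congr fun H => (av_eq H t s).symm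

theorem wgt_eq (F : Finset Ci) (H : ℕ) (s : Ci) : wgt F H s = ‖1 - ∑ t ∈ F, av H t s‖ ^ 2 := rfl

theorem wgt_le (F : Finset Ci) (H : ℕ) (s : Ci) : wgt F H s ≤ (1 + (F.card : ℝ)) ^ 2 := by
  rw [wgt_eq]
  have h1 : ‖1 - ∑ t ∈ F, av H t s‖ ≤ 1 + (F.card : ℝ) := by
    refine (norm_sub_le _ _).trans (add_le_add (by rw [norm_one]) ?_)
    refine (norm_sum_le_of_le (n := fun _ => (1 : ℝ)) _ (fun t _ => av_norm H t s)).trans ?_
    simp
  exact pow_le_pow_left₀ (norm_nonneg _) h1 2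

open Classical in
theorem wgt_tendsto (F : Finset Ci) (s : Ci) :
    Tendsto (fun H => wgt F H s) atTop (𝓝 (if s ∈ F then 0 else 1)) := by
  have h1 : Tendsto (fun H => ∑ t ∈ F, av H t s) atTop (𝓝 (∑ t ∈ F, if s = t then (1 : ℂ) else 0)) :=
    tendsto_finsetSum _ fun t _ => av_tendsto t s
  rw [Finset.sum_ite_eq] at h1
  have h2 := ((tendsto_const_nhds (x := (1 : ℂ))).sub h1).norm.pow 2
  have h3 : ‖(1 : ℂ) - (if s ∈ F then 1 else 0)‖ ^ 2 = (if s ∈ F then (0 : ℝ) else 1) := by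
    split_ifs <;> simp
  rw [h3] at h2
  exact h2

theorem wgt_meas (F : Finset Ci) (H : ℕ) : Measurable (wgt F H) := by
  have h1 : Continuous (wgt F H) := by
    unfold wgt
    fun_prop
  exact h1.measurable

theorem diag_meas : MeasurableSet {p : Ci × Ci | p.1 = p.2} :=
  measurableSet_eq_fun measurable_fst measurable_snd

theorem sing_meas (ρ : Measure Ci) [IsFiniteMeasure ρ] : Measurable fun y : Ci => ρ {y} := by
  have h1 := measurable_measure_prodMk_right (μ := ρ) diag_meas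
  exact h1

theorem diag_eq (ρ σ : Measure Ci) [IsFiniteMeasure ρ] [IsFiniteMeasure σ] (w : Ci → ℝ≥0∞)
    (hw : Measurable w) (hfin : IsFiniteMeasure (ρ.withDensity w)) :
    ((ρ.withDensity w).prod σ) {p : Ci × Ci | p.1 = p.2} = ∫⁻ y, w y * ρ {y} ∂σ := by
  rw [Measure.prod_apply_symm diag_meas]
  refine lintegral_congr fun y => ?_
  have h1 : (fun x : Ci => (x, y)) ⁻¹' {p : Ci × Ci | p.1 = p.2} = {y} := by
    ext x
    rfl
  rw [h1, withDensity_apply _ (measurableSet_singleton y), lintegral_singleton]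

open Classical in
/-- the choice of the finite set -/
theorem exists_fin (ρ σ : Measure Ci) [IsFiniteMeasure ρ] [IsFiniteMeasure σ] {ε : ℝ≥0∞}
    (hε : 0 < ε) : ∃ F : Finset Ci, (∀ t ∈ F, ρ {t} ≠ 0 ∧ σ {t} ≠ 0) ∧
      ∫⁻ y, (if y ∈ F then 0 else 1) * ρ {y} ∂σ < ε := by
  obtain ⟨A, hA⟩ : ∃ A : Set Ci, A = {t : Ci | 0 < ρ {a : Ci | id a = t}} := ⟨_, rfl⟩
  have hAc : A.Countable := by
    rw [hA]
    exact Measure.countable_meas_level_set_pos (μ := ρ) measurable_id
  have hAn : ∀ t, t ∉ A → ρ {t} = 0 := by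
    intro t ht
    by_contra h0
    apply ht
    rw [hA]
    exact pos_iff_ne_zero.2 h0
  have hred : ∀ f : Ci → ℝ≥0∞, ∫⁻ y, f y * ρ {y} ∂σ = ∑' y : A, f y * ρ {(y : Ci)} * σ {(y : Ci)} := by
    intro f
    rw [← lintegral_countable (fun y => f y * ρ {y}) hAc]
    rw [← lintegral_indicator hAc.measurableSet]
    refine lintegral_congr fun y => ?_
    by_cases hy : y ∈ A
    · rw [Set.indicator_of_mem hy]
    · rw [Set.indicator_of_notMem hy, hAn y hy, mul_zero]
  have hfin : ∑' y : A, ρ {(y : Ci)} * σ {(y : Ci)} ≠ ∞ := by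
    have h1 := hred fun _ => 1
    simp only [one_mul] at h1
    rw [← h1]
    refine ne_of_lt ((lintegral_mono fun y => measure_mono (Set.subset_univ {y})).trans_lt ?_)
    rw [lintegral_const]
    exact ENNReal.mul_lt_top (measure_lt_top ρ _) (measure_lt_top σ _)
  have hlim := ENNReal.tendsto_tsum_compl_atTop_zero hfin
  obtain ⟨S, hS⟩ := (hlim.eventually (gt_mem_nhds hε)).exists
  refine ⟨(S.image fun y : A => (y : Ci)).filter fun t => ρ {t} ≠ 0 ∧ σ {t} ≠ 0,
    fun t ht => (Finset.mem_filter.1 ht).2, ?_⟩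
  rw [hred]
  have hts : ∑' b : {x // x ∉ S}, ρ {((b : A) : Ci)} * σ {((b : A) : Ci)} =
      ∑' y : A, Set.indicator {x : A | x ∉ S} (fun y : A => ρ {(y : Ci)} * σ {(y : Ci)}) y :=
    tsum_subtype {x : A | x ∉ S} (fun y : A => ρ {(y : Ci)} * σ {(y : Ci)})
  refine lt_of_le_of_lt (le_of_le_of_eq ?_ hts.symm) hS
  refine ENNReal.tsum_le_tsum fun y => ?_
  by_cases hyS : y ∈ S
  · rw [Set.indicator_of_notMem (by simpa using hyS)]
    by_cases h1 : ρ {(y : Ci)} ≠ 0 ∧ σ {(y : Ci)} ≠ 0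
    · rw [if_pos (Finset.mem_filter.2 ⟨Finset.mem_image_of_mem _ hyS, h1⟩), zero_mul, zero_mul]
    · have h2 : ρ {(y : Ci)} = 0 ∨ σ {(y : Ci)} = 0 := by
        by_contra h3
        push Not at h3
        exact h1 h3
      rcases h2 with h2 | h2
      · rw [h2, mul_zero, zero_mul]
      · rw [h2, mul_zero]
  · rw [Set.indicator_of_mem (by exact hyS)]
    gcongr
    split_ifs
    · rw [zero_mul]
      exact bot_le
    · rw [one_mul]

theorem t_DIA : S_DIA := by
  classical
  intro ρ σ hρ hσ ε hε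
  obtain ⟨F, hF, hlt⟩ := exists_fin ρ σ (ENNReal.ofReal_pos.2 hε)
  refine ⟨F, hF, ?_⟩
  have hfin : ∀ H, IsFiniteMeasure (ρ.withDensity fun s => ENNReal.ofReal (wgt F H s)) := by
    intro H
    refine isFiniteMeasure_withDensity (ne_of_lt ((lintegral_mono fun s =>
      ENNReal.ofReal_le_ofReal (wgt_le F H s)).trans_lt ?_))
    rw [lintegral_const]
    exact ENNReal.mul_lt_top ENNReal.ofReal_lt_top (measure_lt_top ρ _)
  have hlim : Tendsto (fun H => ∫⁻ y, ENNReal.ofReal (wgt F H y) * ρ {y} ∂σ) atTop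
      (𝓝 (∫⁻ y, (if y ∈ F then 0 else 1) * ρ {y} ∂σ)) := by
    refine tendsto_lintegral_of_dominated_convergence
      (fun _ => ENNReal.ofReal ((1 + (F.card : ℝ)) ^ 2) * ρ Set.univ)
      (fun H => ((wgt_meas F H).ennreal_ofReal.mul (sing_meas ρ)))
      (fun H => Eventually.of_forall fun y => ?_) ?_ (Eventually.of_forall fun y => ?_)
    · exact mul_le_mul' (ENNReal.ofReal_le_ofReal (wgt_le F H y)) (measure_mono (Set.subset_univ _))
    · rw [lintegral_const]
      exact (ENNReal.mul_lt_top (ENNReal.mul_lt_top ENNReal.ofReal_lt_top (measure_lt_top ρ _))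
        (measure_lt_top σ _)).ne
    · have h1 : Tendsto (fun H => ENNReal.ofReal (wgt F H y)) atTop
          (𝓝 (if y ∈ F then 0 else 1)) := by
        have h2 := (ENNReal.continuous_ofReal.tendsto _).comp (wgt_tendsto F y)
        have h3 : ENNReal.ofReal (if y ∈ F then (0 : ℝ) else 1) = if y ∈ F then (0 : ℝ≥0∞) else 1 := by
          split_ifs <;> simp
        rw [h3] at h2
        exact h2
      exact ENNReal.Tendsto.mul_const h1 (Or.inr (measure_ne_top ρ _))
  obtain ⟨H₀, hH₀⟩ := eventually_atTop.1 (hlim.eventually (gt_mem_nhds hlt))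
  refine ⟨H₀, fun H hH => ?_⟩
  unfold dmass
  have := hfin H
  rw [diag_eq ρ σ _ (wgt_meas F H).ennreal_ofReal (hfin H)]
  exact ENNReal.toReal_le_of_le_ofReal hε.le (hH₀ H hH).le

end Pool.Agent.V5helper47.NR
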